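import Pool.Agent.H93.HQ.Targets

set_option autoImplicit false

namespace Pool.Agent.H17.HQ.BL2
open MeasureTheory Set Filter Topology Pool.Agent.H80.HS Pool.Agent.H93.HQ
open scoped ContDiff ENNReal

theorem pf_BL2 : U_BL2 := by
  intro Q p r hp hpQ hr
  have hp0 : 0 < p := by linarith
  have hp1 : 0 < p - 1 := by linarith
  have hQp : 0 < Q - p := by linarith
  set a : ℝ := p / (p - 1) with ha
  have ha0 : 0 < a := by positivity
  set b : ℝ := (Q - p) / p with hb
  have hb0 : 0 < b := by positivity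
  set F : ℝ → ℝ := fun s => -((1 + s ^ a) ^ (-b)) with hF
  set f : ℝ → ℝ := fun s => (Q - p) / (p - 1) * s ^ (a - 1) * (1 + s ^ a) ^ (-(Q / p)) with hf
  have hder : ∀ s : ℝ, 0 < s → HasDerivAt F (f s) s := by
    intro s hs
    have h1 : HasDerivAt (fun s : ℝ => s ^ a) (a * s ^ (a - 1)) s :=
      Real.hasDerivAt_rpow_const (Or.inl hs.ne')
    have h2 : HasDerivAt (fun s : ℝ => 1 + s ^ a) (a * s ^ (a - 1)) s := h1.const_add 1
    have hpos : 0 < 1 + s ^ a := by positivity
    have h3 := (h2.rpow_const (p := -b) (Or.inl hpos.ne')).neg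
    have h4 : f s = -(a * s ^ (a - 1) * (-b) * (1 + s ^ a) ^ (-b - 1)) := by
      have h5 : -b - 1 = -(Q / p) := by
        rw [hb]; field_simp; ring
      have h6 : a * b = (Q - p) / (p - 1) := by
        rw [ha, hb]; field_simp
      rw [h5, hf]
      simp only
      rw [← h6]
      ring
    rw [h4]
    exact h3
  have hnn : ∀ s : ℝ, 0 < s → 0 ≤ f s := by
    intro s hs
    simp only [hf]
    positivity
  have hlim : Tendsto F atTop (𝓝 0) := by
    have h1 : Tendsto (fun s : ℝ => 1 + s ^ a) atTop atTop :=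
      tendsto_atTop_add_const_left _ 1 (tendsto_rpow_atTop ha0)
    have h2 := (tendsto_rpow_neg_atTop hb0).comp h1
    have h3 := h2.neg
    rw [neg_zero] at h3
    exact h3
  have hcont : ContinuousWithinAt F (Ici r) r := (hder r hr).continuousAt.continuousWithinAt
  have hint := integral_Ioi_of_hasDerivAt_of_nonneg hcont
    (fun s hs => hder s (hr.trans hs)) (fun s hs => hnn s (hr.trans hs)) hlim
  have hInt := integrableOn_Ioi_deriv_of_nonneg hcont
    (fun s hs => hder s (hr.trans hs)) (fun s hs => hnn s (hr.trans hs)) hlim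
  have h0 : 0 ≤ᵐ[volume.restrict (Ioi r)] f :=
    (ae_restrict_iff' measurableSet_Ioi).mpr
      (Eventually.of_forall fun s hs => hnn s (hr.trans hs))
  have hfin := ofReal_integral_eq_lintegral_ofReal hInt h0
  rw [hint] at hfin
  have hval : 0 - F r = (1 + r ^ a) ^ (-b) := by simp only [hF]; ring
  rw [hval] at hfin
  exact hfin.symm

end Pool.Agent.H17.HQ.BL2
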