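import Pool.Agent.H93.HQ.Targets

set_option autoImplicit false

namespace Pool.Agent.H17.HQ.EX
open MeasureTheory Set Pool.Agent.H80.HS Pool.Agent.H93.HQ
open scoped ContDiff ENNReal

theorem pf_EX : U_EX := by
  intro 𝕜 _ n p L U hL hU hlow
  set S : Set ℝ := {C : ℝ | SobolevIneq 𝕜 n p C} with hS
  have hup : U ∈ S := hU
  have hlow' : ∀ C ∈ S, L ≤ C := fun C hC => hlow C hC
  have hbdd : BddBelow S := ⟨L, fun C hC => hlow' C hC⟩
  have hmem : sInf S ∈ S := by
    intro u hu hc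
    have hI : 0 ≤ ∫ z, grad u z ^ p :=
      integral_nonneg fun z => Real.rpow_nonneg (grad_nonneg u z) p
    have hall : ∀ C ∈ S, (∫ z, ‖u z‖ ^ ((2 * n + 2) * p / (2 * n + 2 - p))) ^
        ((2 * n + 2 - p) / (2 * n + 2)) ≤ C * ∫ z, grad u z ^ p := fun C hC => hC u hu hc
    rcases hI.eq_or_lt with h0 | h0
    · have := hall _ hup
      rw [← h0, mul_zero] at this
      rw [← h0, mul_zero]
      exact this
    · rw [← div_le_iff₀ h0]
      apply le_csInf ⟨_, hup⟩
      intro C hC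
      rw [div_le_iff₀ h0]
      exact hall C hC
  exact ⟨sInf S, ⟨hmem, fun C hC => csInf_le hbdd hC⟩, hlow' _ hmem, csInf_le hbdd hup⟩

end Pool.Agent.H17.HQ.EX
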